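import Pool.Agent.PQP.StmtsV
import Pool.Agent.FLX.Stmts

/-!
# Squad PQP, row JEG (Jensen, general form)
-/

set_option autoImplicit false

open scoped InnerProductSpace Topology ContDiff Manifold
open MeasureTheory Filter Set

noncomputable section

namespace Pool.Agent.PQP.H60

open Pool.Agent.Helper42_Paneitz Pool.Agent.Helper82_Vir Pool.Agent.FLX Pool.Agent.PQP

/-- the tangent line form of the Jensen inequality for a mass `m ≤ μ` -/
theorem exp_le_aux {T m μ I : ℝ} (hμ : 0 < μ) (hm0 : 0 ≤ m) (hmμ : m ≤ μ)
    (hI : Real.exp T * (m * (1 - T) + μ * T) ≤ I) : Real.exp T ≤ 1 + I / μ := by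
  have h1 : Real.exp T * (1 - T) ≤ 1 := by
    have h := Real.add_one_le_exp (-T)
    have h2 : Real.exp T * Real.exp (-T) = 1 := by rw [← Real.exp_add]; simp
    nlinarith [Real.exp_pos T]
  have h3 : Real.exp T * (m * (1 - T) + μ * T) / μ ≤ I / μ := div_le_div_of_nonneg_right hI hμ.le
  have h4 : Real.exp T * (m * (1 - T) + μ * T) / μ =
      Real.exp T - (1 - m / μ) * (Real.exp T * (1 - T)) := by
    field_simp
    ring
  have h6 : 0 ≤ 1 - m / μ := by
    have : m / μ ≤ 1 := (div_le_one hμ).2 hmμ
    linarith
  have h7 : 0 ≤ m / μ := div_nonneg hm0 hμ.le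
  have h5 : (1 - m / μ) * (Real.exp T * (1 - T)) ≤ 1 := by
    calc (1 - m / μ) * (Real.exp T * (1 - T)) ≤ (1 - m / μ) * 1 :=
          mul_le_mul_of_nonneg_left h1 h6
      _ ≤ 1 := by linarith
  linarith

theorem measurable_ell2 : Measurable (fun q : S4 × S4 => ell q.1 q.2) := by
  unfold ell
  have h : Continuous (fun q : S4 × S4 => 1 - ⟪(q.1 : E5), (q.2 : E5)⟫_ℝ) := by fun_prop
  exact (Real.measurable_log.comp h.measurable).neg

theorem one_sub_inner_nonneg (x y : S4) : 0 ≤ 1 - ⟪(x : E5), (y : E5)⟫_ℝ := by
  have h := real_inner_le_norm (x : E5) (y : E5)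
  have hx : ‖(x : E5)‖ = 1 := by simp
  have hy : ‖(y : E5)‖ = 1 := by simp
  rw [hx, hy] at h
  linarith

/-- `exp (a max (ell x y) 0) ≤ 1 + (1 - <x,y>)^(-a)` -/
theorem exp_max_le (a : ℝ) (x y : S4) :
    Real.exp (a * max (ell x y) 0) ≤ 1 + (1 - ⟪(x : E5), (y : E5)⟫_ℝ) ^ (-a) := by
  have h0 := one_sub_inner_nonneg x y
  have hp : 0 ≤ (1 - ⟪(x : E5), (y : E5)⟫_ℝ) ^ (-a) := Real.rpow_nonneg h0 _
  rcases le_total (ell x y) 0 with h | h
  · rw [max_eq_right h]
    simp only [mul_zero, Real.exp_zero]
    linarith
  · rw [max_eq_left h]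
    rcases h0.eq_or_lt with h1 | h1
    · have : ell x y = 0 := by
        unfold ell
        rw [← h1]
        simp
      rw [this]
      simp only [mul_zero, Real.exp_zero]
      linarith
    · have : Real.exp (a * ell x y) = (1 - ⟪(x : E5), (y : E5)⟫_ℝ) ^ (-a) := by
        rw [Real.rpow_def_of_pos h1]
        congr 1
        unfold ell
        ring
      rw [this]
      linarith

theorem jeg (hPOW : PowStmt) : JegStmt := by
  intro p μ hp hμ hpμ
  obtain ⟨C, hC0, hC⟩ := hPOW (4 * p * μ) hpμ
  refine ⟨msig + (msig + C) / μ, by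
    have := msig_pos
    positivity, ?_⟩
  intro f E B hf hE hB hm
  obtain ⟨hfc, hfp, hf1⟩ := hf
  have hms := msig_pos
  obtain ⟨M, hM⟩ : ∃ M : ℝ, ∀ y, f y ≤ M := by
    obtain ⟨M, hM⟩ := isCompact_univ.bddAbove_image hfc.continuousOn
    exact ⟨M, fun y => hM (mem_image_of_mem f (mem_univ y))⟩
  have hfi : Integrable f sig := hfc.integrable_of_hasCompactSupport (HasCompactSupport.of_compactSpace f)
  -- the comparison kernel
  set k : S4 → S4 → ℝ := fun x y => 1 + (1 - ⟪(x : E5), (y : E5)⟫_ℝ) ^ (-(4 * p * μ)) with hk
  have hk0 : ∀ x y, 0 ≤ k x y := fun x y => by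
    have := Real.rpow_nonneg (one_sub_inner_nonneg x y) (-(4 * p * μ))
    simp only [hk]
    linarith
  have hksym : ∀ x y, k x y = k y x := fun x y => by
    simp only [hk]
    rw [real_inner_comm]
  have hkm : Measurable (fun q : S4 × S4 => k q.1 q.2) := by
    have h : Continuous (fun q : S4 × S4 => 1 - ⟪(q.1 : E5), (q.2 : E5)⟫_ℝ) := by fun_prop
    exact measurable_const.add (h.measurable.pow_const _)
  have hki : ∀ x, Integrable (k x) sig := fun x => (integrable_const 1).add (hC x).1
  have hkI : ∀ x, ∫ y, k x y ∂sig ≤ msig + C := fun x => by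
    simp only [hk]
    rw [integral_add (integrable_const 1) (hC x).1]
    have : ∫ _ : S4, (1 : ℝ) ∂sig = msig := by simp [msig, Measure.real]
    rw [this]
    linarith [(hC x).2]
  have hkfi : ∀ x, Integrable (fun y => k x y * f y) sig := fun x => by
    refine (hki x).mul_bdd hfc.aestronglyMeasurable (c := M) (Eventually.of_forall fun y => ?_)
    rw [Real.norm_of_nonneg (hfp y).le]
    exact hM y
  -- Tonelli
  have hkfm : Measurable (fun q : S4 × S4 => k q.1 q.2 * f q.2) :=
    hkm.mul (hfc.measurable.comp measurable_snd)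
  have hprod : Integrable (fun q : S4 × S4 => k q.1 q.2 * f q.2) (sig.prod sig) := by
    rw [integrable_prod_iff' hkfm.aestronglyMeasurable]
    refine ⟨Eventually.of_forall fun y => ?_, ?_⟩
    · have : (fun x => k x y * f y) = fun x => k y x * f y := by
        funext x
        rw [hksym]
      simp only [this]
      exact (hki y).mul_const _
    · have hmeas : AEStronglyMeasurable (fun y : S4 => ∫ x : S4, ‖k x y * f y‖ ∂sig) sig := by
        have := hkfm.norm.stronglyMeasurable
        exact (this.integral_prod_left').aestronglyMeasurable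
      refine Integrable.mono' (hfi.const_mul (msig + C)) hmeas (Eventually.of_forall fun y => ?_)
      rw [Real.norm_of_nonneg (integral_nonneg fun _ => norm_nonneg _)]
      have : ∀ x, ‖k x y * f y‖ = k y x * f y := fun x => by
        rw [Real.norm_of_nonneg (mul_nonneg (hk0 _ _) (hfp _).le), hksym]
      simp only [this]
      rw [integral_mul_const]
      exact mul_le_mul_of_nonneg_right (hkI y) (hfp y).le
  have hHint : Integrable (fun x => ∫ y, k x y * f y ∂sig) sig := hprod.integral_prod_left
  have hHbd : ∫ x, ∫ y, k x y * f y ∂sig ∂sig ≤ msig + C := by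
    rw [integral_integral_swap hprod]
    have : ∀ y, ∫ x, k x y * f y ∂sig ≤ (msig + C) * f y := fun y => by
      have h1 : ∀ x, k x y * f y = k y x * f y := fun x => by rw [hksym]
      simp only [h1]
      rw [integral_mul_const]
      exact mul_le_mul_of_nonneg_right (hkI y) (hfp y).le
    calc ∫ y, ∫ x, k x y * f y ∂sig ∂sig ≤ ∫ y, (msig + C) * f y ∂sig :=
          integral_mono hprod.integral_prod_right (hfi.const_mul _) this
      _ = msig + C := by rw [integral_const_mul, hf1, mul_one]
  -- sections
  have hBx : ∀ x, MeasurableSet {y | (x, y) ∈ B} := fun x => measurable_prodMk_left hB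
  -- pointwise estimate
  have key : ∀ x ∈ E, Real.exp (4 * p * ∫ y in {y | (x, y) ∈ B}, max (ell x y) 0 * f y ∂sig) ≤
      1 + (∫ y, k x y * f y ∂sig) / μ := by
    intro x hx
    set S : Set S4 := {y | (x, y) ∈ B} with hS
    set g : S4 → ℝ := fun y => 4 * p * max (ell x y) 0 with hg
    have hellm : Measurable (ell x) := measurable_ell2.comp measurable_prodMk_left
    have hgm : Measurable g := measurable_const.mul (hellm.max measurable_const)
    have hg0 : ∀ y, 0 ≤ g y := fun y => by
      have := le_max_right (ell x y) 0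
      simp only [hg]
      positivity
    have hexp : ∀ y, Real.exp (μ * g y) ≤ k x y := fun y => by
      have h := exp_max_le (4 * p * μ) x y
      have h2 : μ * g y = 4 * p * μ * max (ell x y) 0 := by
        simp only [hg]
        ring
      rw [h2]
      exact h
    have hei : Integrable (fun y => Real.exp (μ * g y) * f y) sig := by
      refine Integrable.mono' (hkfi x)
        (((measurable_const.mul hgm).exp).mul hfc.measurable).aestronglyMeasurable
        (Eventually.of_forall fun y => ?_)
      rw [Real.norm_of_nonneg (mul_nonneg (Real.exp_pos _).le (hfp y).le)]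
      exact mul_le_mul_of_nonneg_right (hexp y) (hfp y).le
    have hgi : Integrable (fun y => g y * f y) sig := by
      refine Integrable.mono' (hei.const_mul (1 / μ)) (hgm.mul hfc.measurable).aestronglyMeasurable
        (Eventually.of_forall fun y => ?_)
      rw [Real.norm_of_nonneg (mul_nonneg (hg0 y) (hfp y).le)]
      have h1 : μ * g y ≤ Real.exp (μ * g y) := by linarith [Real.add_one_le_exp (μ * g y)]
      have h2 : g y ≤ 1 / μ * Real.exp (μ * g y) := by
        rw [one_div, inv_mul_eq_div, le_div_iff₀ hμ]
        linarith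
      calc g y * f y ≤ 1 / μ * Real.exp (μ * g y) * f y := mul_le_mul_of_nonneg_right h2 (hfp y).le
        _ = 1 / μ * (Real.exp (μ * g y) * f y) := by ring
    set T : ℝ := ∫ y in S, g y * f y ∂sig with hT
    have hTeq : 4 * p * ∫ y in S, max (ell x y) 0 * f y ∂sig = T := by
      rw [hT, ← integral_const_mul]
      refine integral_congr_ae (Eventually.of_forall fun y => ?_)
      simp only [hg]
      ring
    rw [hTeq]
    set m : ℝ := ∫ y in S, f y ∂sig with hmdef
    have hm0 : 0 ≤ m := setIntegral_nonneg (hBx x) fun y _ => (hfp y).le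
    have hmμ : m ≤ μ := hm x hx
    refine exp_le_aux hμ hm0 hmμ ?_
    have h1 : ∫ y in S, Real.exp T * ((1 - T) * f y + μ * (g y * f y)) ∂sig =
        Real.exp T * (m * (1 - T) + μ * T) := by
      rw [integral_const_mul, integral_add ((hfi.const_mul _).integrableOn) ((hgi.const_mul _).integrableOn),
        integral_const_mul, integral_const_mul]
      ring
    rw [← h1]
    have hint1 : Integrable (fun y => Real.exp T * ((1 - T) * f y + μ * (g y * f y))) sig :=
      ((hfi.const_mul _).add (hgi.const_mul _)).const_mul _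
    calc ∫ y in S, Real.exp T * ((1 - T) * f y + μ * (g y * f y)) ∂sig
        ≤ ∫ y in S, k x y * f y ∂sig := by
          refine setIntegral_mono hint1.integrableOn (hkfi x).integrableOn fun y => ?_
          have h2 : Real.exp T * (1 - T + μ * g y) ≤ Real.exp (μ * g y) := by
            have h3 := Real.add_one_le_exp (μ * g y - T)
            have h4 : Real.exp (μ * g y) = Real.exp T * Real.exp (μ * g y - T) := by
              rw [← Real.exp_add]
              congr 1
              ring
            rw [h4]
            refine mul_le_mul_of_nonneg_left ?_ (Real.exp_pos T).le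
            linarith
          have h5 : Real.exp T * ((1 - T) * f y + μ * (g y * f y)) =
              Real.exp T * (1 - T + μ * g y) * f y := by ring
          simp only []
          rw [h5]
          exact mul_le_mul_of_nonneg_right (h2.trans (hexp y)) (hfp y).le
      _ ≤ ∫ y, k x y * f y ∂sig :=
          setIntegral_le_integral (hkfi x)
            (Eventually.of_forall fun y => mul_nonneg (hk0 x y) (hfp y).le)
  -- measurability
  have hmeas : Measurable (fun x => Real.exp (4 * p * ∫ y in {y | (x, y) ∈ B}, max (ell x y) 0 * f y ∂sig)) := by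
    have h1 : ∀ x, ∫ y in {y | (x, y) ∈ B}, max (ell x y) 0 * f y ∂sig =
        ∫ y, B.indicator (fun q : S4 × S4 => max (ell q.1 q.2) 0 * f q.2) (x, y) ∂sig := fun x => by
      rw [← integral_indicator (hBx x)]
      rfl
    simp only [h1]
    have h2 : Measurable (B.indicator (fun q : S4 × S4 => max (ell q.1 q.2) 0 * f q.2)) :=
      ((measurable_ell2.max measurable_const).mul (hfc.measurable.comp measurable_snd)).indicator hB
    have h3 : StronglyMeasurable (fun x : S4 =>
        ∫ y, B.indicator (fun q : S4 × S4 => max (ell q.1 q.2) 0 * f q.2) (x, y) ∂sig) :=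
      h2.stronglyMeasurable.integral_prod_right'
    exact (measurable_const.mul h3.measurable).exp
  have hdom : Integrable (fun x => 1 + (∫ y, k x y * f y ∂sig) / μ) sig :=
    (integrable_const 1).add (hHint.div_const μ)
  have hI : IntegrableOn (fun x => Real.exp (4 * p * ∫ y in {y | (x, y) ∈ B},
      max (ell x y) 0 * f y ∂sig)) E sig := by
    refine Integrable.mono' hdom.integrableOn hmeas.aestronglyMeasurable ?_
    filter_upwards [ae_restrict_mem hE] with x hx
    rw [Real.norm_of_nonneg (Real.exp_pos _).le]
    exact key x hx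
  refine ⟨hI, ?_⟩
  calc ∫ x in E, Real.exp (4 * p * ∫ y in {y | (x, y) ∈ B}, max (ell x y) 0 * f y ∂sig) ∂sig
      ≤ ∫ x in E, (1 + (∫ y, k x y * f y ∂sig) / μ) ∂sig :=
        setIntegral_mono_on hI hdom.integrableOn hE key
    _ ≤ ∫ x, (1 + (∫ y, k x y * f y ∂sig) / μ) ∂sig := by
        refine setIntegral_le_integral hdom (Eventually.of_forall fun x => ?_)
        have : 0 ≤ ∫ y, k x y * f y ∂sig := integral_nonneg fun y => mul_nonneg (hk0 x y) (hfp y).le
        simp only [Pi.zero_apply]
        positivity
    _ = msig + (∫ x, ∫ y, k x y * f y ∂sig ∂sig) / μ := by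
        rw [integral_add (integrable_const 1) (hHint.div_const μ), integral_div]
        congr 1
        simp [msig, Measure.real]
    _ ≤ msig + (msig + C) / μ := by
        have := div_le_div_of_nonneg_right hHbd hμ.le
        linarith

end Pool.Agent.PQP.H60
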