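import Pool.Agent.PQP.StmtsN

/-!
# Squad PQP, row ALL (all the mass in a tiny cap)
-/

set_option autoImplicit false

open scoped InnerProductSpace Topology ContDiff Manifold
open MeasureTheory Filter Set

noncomputable section

namespace Pool.Agent.PQP.H60

open Pool.Agent.Helper42_Paneitz Pool.Agent.Helper82_Vir Pool.Agent.FLX Pool.Agent.PQP

/-- the tangential part of `z` at `x` -/
theorem norm_tang_sq (z x : S4) :
    ‖(z : E5) - ⟪(z : E5), (x : E5)⟫_ℝ • (x : E5)‖ ^ 2 = 1 - ⟪(z : E5), (x : E5)⟫_ℝ ^ 2 := by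
  have hx : ‖(x : E5)‖ = 1 := by simp
  have hz : ‖(z : E5)‖ = 1 := by simp
  rw [@norm_sub_sq_real, inner_smul_right, norm_smul, hx, hz, Real.norm_eq_abs, mul_one, sq_abs]
  ring

theorem norm_tang_le (z x : S4) {R : ℝ} (h : 1 - ⟪(z : E5), (x : E5)⟫_ℝ ≤ R) :
    ‖(z : E5) - ⟪(z : E5), (x : E5)⟫_ℝ • (x : E5)‖ ≤ √(2 * R) := by
  apply Real.le_sqrt_of_sq_le
  rw [norm_tang_sq]
  have hi := real_inner_le_norm (z : E5) (x : E5)
  have hx : ‖(x : E5)‖ = 1 := by simp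
  have hz : ‖(z : E5)‖ = 1 := by simp
  rw [hx, hz] at hi
  nlinarith

theorem all_row (hTIN : TinStmt) (hCUT : CutStmt) (hWTL : WtlStmt) : AllStmt := by
  intro ψ N hψ ε₀ ε hε₀ hε
  obtain ⟨c₀, T₀, hc₀, hT₀, hT⟩ := hTIN ψ N hψ ε₀ hε₀
  obtain ⟨C, hC, hcut⟩ := hCUT
  obtain ⟨hdl, hsm, L, hL, -, hLd, -⟩ := hWTL ψ hψ.1
  -- the limit
  have hlim : Tendsto (fun t : ℝ => 4 * C * (2 / c₀ * (1 / t) + L * √2 * (t ^ (1 : ℝ) *
      Real.exp (-(c₀ / 4) * t)))) atTop (𝓝 (4 * C * (2 / c₀ * 0 + L * √2 * 0))) := by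
    refine Tendsto.const_mul _ (Tendsto.add (Tendsto.const_mul _ ?_) (Tendsto.const_mul _ ?_))
    · refine (tendsto_inv_atTop_zero (𝕜 := ℝ)).congr fun t => ?_
      rw [one_div]
    · exact tendsto_rpow_mul_exp_neg_mul_atTop_nhds_zero 1 (c₀ / 4) (by positivity)
  have hlim2 : ∀ᶠ t : ℝ in atTop, 4 * C * (2 / c₀ * (1 / t) + L * √2 * (t ^ (1 : ℝ) *
      Real.exp (-(c₀ / 4) * t))) < ε := by
    refine hlim.eventually_lt_const ?_
    simpa using hε
  obtain ⟨T₁, hT₁⟩ := (hlim2.and (eventually_ge_atTop (2 * Real.log 2 / c₀))).exists_forall_of_atTop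
  refine ⟨c₀ / 2, max T₀ (max T₁ 1), by positivity, lt_of_lt_of_le hT₀ (le_max_left _ _), ?_⟩
  intro t f ht hs
  have htT₀ : T₀ ≤ t := (le_max_left _ _).trans ht
  have htT₁ : T₁ ≤ t := ((le_max_left _ _).trans (le_max_right _ _)).trans ht
  have ht1 : 1 ≤ t := ((le_max_right _ _).trans (le_max_right _ _)).trans ht
  have ht0 : 0 < t := by linarith
  by_cases hcase : 1 - mas f N ε₀ ≤ ε₀
  · exact Or.inl hcase
  refine Or.inr ?_
  push Not at hcase
  obtain ⟨z, hz, hmz⟩ := hT t f htT₀ hs hcase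
  refine ⟨z, hz, ?_⟩
  obtain ⟨hlt, hge⟩ := hT₁ t htT₁
  set r : ℝ := Real.exp (-(c₀ * t)) with hr
  set R : ℝ := Real.exp (-(c₀ / 2 * t)) with hR
  have hlog : Real.log (R / r) = c₀ * t / 2 := by
    rw [hr, hR, ← Real.exp_sub, Real.log_exp]
    ring
  have hge2 : Real.log 2 ≤ c₀ * t / 2 := by
    rw [div_le_iff₀ hc₀] at hge
    linarith
  have h2r : 2 * r ≤ R := by
    have h1 : R = r * Real.exp (c₀ * t / 2) := by
      rw [hr, hR, ← Real.exp_add]
      congr 1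
      ring
    have h2 : 2 ≤ Real.exp (c₀ * t / 2) := by
      rw [← Real.log_le_iff_le_exp (by norm_num)]
      exact hge2
    rw [h1, mul_comm 2 r]
    exact mul_le_mul_of_nonneg_left h2 (Real.exp_pos _).le
  have hR1 : R ≤ 1 := by
    rw [hR, Real.exp_le_one_iff]
    have : 0 < c₀ / 2 * t := by positivity
    linarith
  have hD0 : 0 ≤ t * L * √(2 * R) := by positivity
  have hmain := hcut (Wt ψ t) f z r R (t * L * √(2 * R)) (hsm t).1 (hsm t).2 hs (Real.exp_pos _) h2r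
    hR1 hD0 (Or.inl fun x hx => ?_)
  · have hsq : √(2 * R) = √2 * Real.exp (-(c₀ / 4) * t) := by
      rw [Real.sqrt_mul (by norm_num)]
      congr 1
      have h3 : R = Real.exp (-(c₀ / 4) * t) ^ 2 := by
        rw [hR, ← Real.exp_nat_mul]
        congr 1
        push_cast
        ring
      rw [h3, Real.sqrt_sq (Real.exp_pos _).le]
    rw [hlog, hsq] at hmain
    rw [Real.rpow_one] at hlt
    have h4 : C * (1 / (c₀ * t / 2) + t * L * (√2 * Real.exp (-(c₀ / 4) * t))) =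
        (4 * C * (2 / c₀ * (1 / t) + L * √2 * (t * Real.exp (-(c₀ / 4) * t)))) / 4 := by
      field_simp
    rw [h4] at hmain
    rcases le_total (1 - mas f z R) 0 with h5 | h5
    · exact h5.trans hε.le
    · have h6 : 1 / 4 * (1 - mas f z R) ≤ mas f z r * (1 - mas f z R) :=
        mul_le_mul_of_nonneg_right hmz.le h5
      linarith
  · rw [hdl, abs_neg, abs_mul, abs_of_pos ht0, mul_assoc]
    refine mul_le_mul_of_nonneg_left ?_ ht0.le
    exact (hLd _ _).trans (mul_le_mul_of_nonneg_left (norm_tang_le z x hx) hL.le)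

end Pool.Agent.PQP.H60
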