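import Pool.Agent.PQP.StmtsN

/-!
# Squad PQP, row BUB (bubble in balanced position)
-/

set_option autoImplicit false

open scoped InnerProductSpace Topology ContDiff Manifold
open MeasureTheory Filter Set

noncomputable section

namespace Pool.Agent.PQP.H60

open Pool.Agent.Helper42_Paneitz Pool.Agent.Helper82_Vir Pool.Agent.FLX Pool.Agent.PQP

theorem norm_sub_sq_sph (x y : S4) : ‖(x : E5) - (y : E5)‖ ^ 2 = 2 * (1 - ⟪(x : E5), (y : E5)⟫_ℝ) := by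
  have hx : ‖(x : E5)‖ = 1 := by simp
  have hy : ‖(y : E5)‖ = 1 := by simp
  rw [@norm_sub_sq_real, hx, hy]
  ring

/-- `(1 - <x,z>)` by the triangle inequality, with weights `4/3` and `4` -/
theorem one_sub_inner_tri (x y z : S4) : 1 - ⟪(x : E5), (z : E5)⟫_ℝ ≤
    4 / 3 * (1 - ⟪(x : E5), (y : E5)⟫_ℝ) + 4 * (1 - ⟪(y : E5), (z : E5)⟫_ℝ) := by
  have h1 := norm_sub_sq_sph x y
  have h2 := norm_sub_sq_sph y z
  have h3 := norm_sub_sq_sph x z
  have h4 : ‖(x : E5) - (z : E5)‖ ≤ ‖(x : E5) - (y : E5)‖ + ‖(y : E5) - (z : E5)‖ := norm_sub_le_norm_sub_add_norm_sub _ _ _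
  have h5 := norm_nonneg ((x : E5) - (z : E5))
  have h6 : ‖(x : E5) - (z : E5)‖ ^ 2 ≤ (‖(x : E5) - (y : E5)‖ + ‖(y : E5) - (z : E5)‖) ^ 2 :=
    pow_le_pow_left₀ h5 h4 2
  nlinarith [sq_nonneg (‖(x : E5) - (y : E5)‖ - 3 * ‖(y : E5) - (z : E5)‖)]

/-- `(1 - <x,z>)` by the triangle inequality, with weights `2` and `2` -/
theorem one_sub_inner_tri2 (x y z : S4) : 1 - ⟪(x : E5), (z : E5)⟫_ℝ ≤
    2 * (1 - ⟪(x : E5), (y : E5)⟫_ℝ) + 2 * (1 - ⟪(y : E5), (z : E5)⟫_ℝ) := by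
  have h1 := norm_sub_sq_sph x y
  have h2 := norm_sub_sq_sph y z
  have h3 := norm_sub_sq_sph x z
  have h4 : ‖(x : E5) - (z : E5)‖ ≤ ‖(x : E5) - (y : E5)‖ + ‖(y : E5) - (z : E5)‖ := norm_sub_le_norm_sub_add_norm_sub _ _ _
  have h5 := norm_nonneg ((x : E5) - (z : E5))
  have h6 : ‖(x : E5) - (z : E5)‖ ^ 2 ≤ (‖(x : E5) - (y : E5)‖ + ‖(y : E5) - (z : E5)‖) ^ 2 :=
    pow_le_pow_left₀ h5 h4 2
  nlinarith [sq_nonneg (‖(x : E5) - (y : E5)‖ - ‖(y : E5) - (z : E5)‖)]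

theorem measurableSet_cap (z : S4) (u : ℝ) : MeasurableSet (cap z u) := by
  have h : Continuous (fun y : S4 => 1 - ⟪(z : E5), (y : E5)⟫_ℝ) := by fun_prop
  exact h.measurable measurableSet_Iic

theorem mas_mono {f : S4 → ℝ} (hf : Dens f) {z w : S4} {u v : ℝ} (h : cap z u ⊆ cap w v) :
    mas f z u ≤ mas f w v := by
  have hfi : Integrable f sig :=
    hf.1.integrable_of_hasCompactSupport (HasCompactSupport.of_compactSpace f)
  exact setIntegral_mono_set hfi.integrableOn (Eventually.of_forall fun x => (hf.2.1 x).le)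
    (Eventually.of_forall h)

/-- polar form of a parameter in the ball -/
theorem exists_polar (N : S4) (b : E5) (hb : ‖b‖ < 1) :
    ∃ (w : S4) (lam : ℝ), 0 ≤ lam ∧ lam < 1 ∧ b = lam • (w : E5) := by
  by_cases h0 : b = 0
  · exact ⟨N, 0, le_rfl, zero_lt_one, by simp [h0]⟩
  · have hn : ‖b‖ ≠ 0 := norm_ne_zero_iff.2 h0
    refine ⟨⟨‖b‖⁻¹ • b, ?_⟩, ‖b‖, norm_nonneg b, hb, ?_⟩
    · rw [mem_sphere_zero_iff_norm, norm_smul, norm_inv, norm_norm, inv_mul_cancel₀ hn]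
    · simp only [smul_smul, mul_inv_cancel₀ hn, one_smul]

theorem bub (hALL : AllStmt) (hCSN : CsnStmt) (hSCA : ScaStmt) (hBAL : BalStmt) : BubStmt := by
  intro ψ N hψ
  obtain ⟨ε₀, T₁, hε₀, hT₁, hcsn⟩ := hCSN ψ N hψ
  obtain ⟨c₀, T₂, hc₀, hT₂, hall⟩ := hALL ψ N hψ ε₀ (1 / 4) hε₀ (by norm_num)
  have hlim : Tendsto (fun t : ℝ => Real.exp (-(c₀ / 4 * t))) atTop (𝓝 0) :=
    Real.tendsto_exp_neg_atTop_nhds_zero.comp (tendsto_id.const_mul_atTop (by positivity))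
  have hev : ∀ᶠ t : ℝ in atTop, Real.exp (-(c₀ / 4 * t)) < min (1 / 1202) (ε₀ / 7200) :=
    hlim.eventually_lt_const (lt_min (by norm_num) (by positivity))
  obtain ⟨T₃, hT₃⟩ := hev.exists_forall_of_atTop
  refine ⟨ε₀ / 2, c₀ / 4, max T₁ (max T₂ T₃), by positivity, by positivity,
    lt_of_lt_of_le hT₁ (le_max_left _ _), ?_⟩
  intro t f ht hs
  have ht1 : T₁ ≤ t := (le_max_left _ _).trans ht
  have ht2 : T₂ ≤ t := ((le_max_left _ _).trans (le_max_right _ _)).trans ht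
  have ht3 : T₃ ≤ t := ((le_max_right _ _).trans (le_max_right _ _)).trans ht
  set y : ℝ := Real.exp (-(c₀ / 4 * t)) with hy
  have hy0 : 0 < y := Real.exp_pos _
  have hy1 : y < 1 / 1202 := (hT₃ t ht3).trans_le (min_le_left _ _)
  have hy2 : y < ε₀ / 7200 := (hT₃ t ht3).trans_le (min_le_right _ _)
  have hv : Real.exp (-(c₀ * t)) = y ^ 4 := by
    rw [hy, ← Real.exp_nat_mul]
    congr 1
    push_cast
    ring
  rcases hall t f ht2 hs with h | ⟨z, hz, hmz⟩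
  · exact absurd h (hcsn t f ht1 hs)
  rw [hv] at hmz
  obtain ⟨b, hb, hbal⟩ := hBAL f hs.1
  obtain ⟨w, lam, hl0, hl1, rfl⟩ := exists_polar N b hb
  have hy4 : 0 < y ^ 4 := by positivity
  obtain ⟨hk, hwz⟩ := hSCA f w z lam (y ^ 4) hs.1 hl0 hl1 hbal hy4 (by linarith)
  have hy2p : y ^ 2 ≤ y := by nlinarith
  have hy3p : y ^ 3 ≤ y := by nlinarith [mul_pos hy0 hy0]
  have hy4p : y ^ 4 ≤ y := by nlinarith [mul_pos hy0 hy0]
  refine ⟨w, lam, hs, hl0, hl1, hbal, ?_, ?_, ?_⟩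
  · have h1 : sq (lam • (w : E5)) ^ 2 ≤ y ^ 2 := by
      have h2 : 600 * y ^ 4 ≤ y ^ 2 := by nlinarith [sq_nonneg y]
      linarith
    exact (le_abs_self _).trans (abs_le_of_sq_le_sq h1 hy0.le)
  · have h1 := one_sub_inner_tri N w z
    linarith
  · have h1 : cap z (y ^ 4) ⊆ cap w y := by
      intro x hx
      have hx' : 1 - ⟪(z : E5), (x : E5)⟫_ℝ ≤ y ^ 4 := hx
      have h2 := one_sub_inner_tri2 w z x
      have h3 : 1202 * y ^ 4 ≤ y := by nlinarith [mul_pos hy0 hy0, pow_pos hy0 3]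
      change 1 - ⟪(w : E5), (x : E5)⟫_ℝ ≤ y
      linarith
    have h2 := mas_mono hs.1 h1
    linarith

end Pool.Agent.PQP.H60
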